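import Pool.Agent.helper81.PL.SpecP

/-!
# Module INW: the input word
-/

set_option autoImplicit false
set_option linter.dupNamespace false
set_option linter.unusedVariables false
set_option linter.unusedSectionVars false

namespace Pool.Agent.helper81.PL

open Pool.Agent.helper62 Prog Function Polynomial

section

variable [S1]

theorem INW1 : INW1_stmt := by
  unfold INW1_stmt inN
  fun_prop

theorem INW2 : INW2_stmt := by
  unfold INW2_stmt inA
  have h : PT inN := INW1
  fun_prop

theorem INW3 : INW3_stmt := by
  unfold INW3_stmt inK
  have h : PT inN := INW1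
  refine pt_foldl (l := fun w => (w.drop (inN w + 1 + inN w * inN w)).reverse)
    (g := fun _ => 0) (s := fun w a b => min (2 * a + (bif b then 1 else 0)) (inN w * inN w))
    (c := fun w => 2 * (inN w * inN w) + 1) (by fun_prop) (by fun_prop) ?_ ?_ ?_
  · fun_prop
  · exact ((PB.const 2).mul (h.nat_pb.mul h.nat_pb)).add (PB.const 1)
  · intro w i hi
    rw [sz_nat]
    have h1 : ∀ (l : List Bool) (x : ℕ), x ≤ inN w * inN w →
        l.foldl (fun a b => min (2 * a + (bif b then 1 else 0)) (inN w * inN w)) x ≤
          inN w * inN w := by
      intro l
      induction l with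
      | nil => intro x hx; exact hx
      | cons b l ih => intro x hx; exact ih _ (min_le_right _ _)
    have := h1 (((w.drop (inN w + 1 + inN w * inN w)).reverse).take i) 0 (Nat.zero_le _)
    omega

end

lemma INW_len (n : ℕ) (G : SimpleGraph (Fin n)) [DecidableRel G.Adj] :
    ((List.finRange n).flatMap (fun i => (List.finRange n).map
      (fun j => decide (G.Adj i j)))).length = n * n := by
  simp [List.length_flatMap]

lemma INW_get {α β : Type} (n : ℕ) (f : α → List β) (hf : ∀ a, (f a).length = n) (r : List β) :
    ∀ (l : List α) (i j : ℕ) (hi : i < l.length) (hj : j < n),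
      ((l.flatMap f) ++ r)[i * n + j]? = (f l[i])[j]? := by
  intro l
  induction l with
  | nil => intro i j hi hj; simp at hi
  | cons a l ih =>
    intro i j hi hj
    rw [List.flatMap_cons, List.append_assoc]
    cases i with
    | zero =>
      rw [Nat.zero_mul, Nat.zero_add, List.getElem?_append_left (by rw [hf]; exact hj)]
      rfl
    | succ i =>
      have e : (i + 1) * n + j = (f a).length + (i * n + j) := by rw [hf]; ring
      rw [e, List.getElem?_append_right (Nat.le_add_right _ _), Nat.add_sub_cancel_left,
        ih i j (by simpa using hi) hj]
      rfl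

theorem INW4 : INW4_stmt := by
  intro n k G _
  unfold inN
  have h : (List.range (encG n k G).length).find? (fun i => !((encG n k G).getD i false)) =
      some n := by
    rw [List.find?_range_eq_some]
    refine ⟨?_, ?_, ?_⟩
    · simp [encG, List.getD_eq_getElem?_getD]
    · simp [encG]
    · intro j hj
      simp [encG, List.getD_eq_getElem?_getD, List.getElem?_append_left, hj]
  rw [h]; rfl

theorem INW5 : INW5_stmt := by
  intro n k G _ i j
  unfold inA
  rw [INW4 n k G]
  have e : n + 1 + ((i : ℕ) * n + j) = (List.replicate n true).length + (((i : ℕ) * n + j) + 1) := by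
    rw [List.length_replicate]; omega
  rw [List.getD_eq_getElem?_getD, encG, e, List.getElem?_append_right (Nat.le_add_right _ _),
    Nat.add_sub_cancel_left, List.getElem?_cons_succ,
    INW_get n _ (by simp) _ _ _ _ (by simp) j.2]
  simp

lemma INW_bits (M : ℕ) (k : ℕ) :
    k.bits.foldr (fun b a => min (2 * a + (bif b then 1 else 0)) M) 0 = min k M := by
  induction k using Nat.binaryRec' with
  | zero => simp
  | bit b n h ih =>
    rw [Nat.bits_append_bit n b h, List.foldr_cons, ih, Nat.bit_val]
    cases b <;> simp <;> omega

theorem INW6 : INW6_stmt := by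
  intro n k G _
  unfold inK
  rw [INW4 n k G]
  have e : (encG n k G).drop (n + 1 + n * n) = k.bits := by
    have e1 : n + 1 + n * n = (List.replicate n true).length + (n * n + 1) := by
      rw [List.length_replicate]; omega
    rw [encG, e1, ← List.drop_drop, List.drop_left, List.drop_succ_cons,
      List.drop_append_of_le_length (by rw [INW_len]), List.drop_of_length_le (by rw [INW_len])]
    rfl
  rw [e, List.foldl_reverse, INW_bits]

theorem INW7 : INW7_stmt := by
  intro n k G _
  have h : k.bits.length ≤ k := by
    rw [Nat.size_eq_bits_len]
    exact Nat.size_le.2 Nat.lt_two_pow_self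
  rw [encG, List.length_append, List.length_replicate, List.length_cons, List.length_append,
    INW_len]
  omega

end Pool.Agent.helper81.PL
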