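import Pool.Agent.helper81.PL.SpecP

/-!
# Module PAD: polynomial time functions with a padding parameter, as machines
-/

set_option autoImplicit false
set_option linter.dupNamespace false
set_option linter.unusedVariables false
set_option linter.unusedSectionVars false

namespace Pool.Agent.helper81.PL

open Pool.Agent.helper62 Prog Function Polynomial

lemma PAD_poly (c : Polynomial ℕ) : ∃ D : ℕ, ∀ x : ℕ, 1 ≤ x → c.eval x ≤ D * x ^ D := by
  refine ⟨(∑ i ∈ Finset.range (c.natDegree + 1), c.coeff i) + c.natDegree, fun x hx => ?_⟩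
  rw [eval_eq_sum_range]
  calc ∑ i ∈ Finset.range (c.natDegree + 1), c.coeff i * x ^ i
      ≤ ∑ i ∈ Finset.range (c.natDegree + 1), c.coeff i * x ^ c.natDegree := by
        refine Finset.sum_le_sum fun i hi => Nat.mul_le_mul_left _ ?_
        exact Nat.pow_le_pow_right hx (by have := Finset.mem_range.1 hi; omega)
    _ = (∑ i ∈ Finset.range (c.natDegree + 1), c.coeff i) * x ^ c.natDegree := by
        rw [Finset.sum_mul]
    _ ≤ _ := Nat.mul_le_mul (Nat.le_add_right _ _)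
        (Nat.pow_le_pow_right hx (Nat.le_add_left _ _))

lemma PAD_iter (C i : ℕ) : (fun x : ℕ => C * x)^[i] 1 = C ^ i := by
  induction i with
  | zero => rfl
  | succ i ih => rw [Function.iterate_succ_apply', ih, pow_succ, mul_comm]

lemma PAD_pow (C i k : ℕ) (h : i ≤ k) : C ^ i ≤ C ^ k + 1 := by
  rcases Nat.eq_zero_or_pos C with h0 | h0
  · subst h0
    have : 0 ^ i ≤ 1 := by
      rcases Nat.eq_zero_or_pos i with h1 | h1
      · subst h1; simp
      · rw [zero_pow (by omega)]; omega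
    exact this.trans (Nat.le_add_left _ _)
  · exact (Nat.pow_le_pow_right h0 h).trans (Nat.le_succ _)

/-- bounded by a polynomial of the function `M` -/
def PAD_B (M g : List Bool → ℕ) : Prop := ∃ c : Polynomial ℕ, ∀ w, g w ≤ c.eval (M w)

lemma PAD_B.mono {M f g : List Bool → ℕ} (h : PAD_B M g) (hfg : ∀ a, f a ≤ g a) : PAD_B M f := by
  obtain ⟨c, h⟩ := h
  exact ⟨c, fun a => (hfg a).trans (h a)⟩

lemma PAD_B.const (M : List Bool → ℕ) (n : ℕ) : PAD_B M (fun _ => n) :=
  ⟨(n : Polynomial ℕ), fun a => by simp⟩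

lemma PAD_B.self (M : List Bool → ℕ) : PAD_B M M := ⟨X, fun a => by simp⟩

lemma PAD_B.add {M f g : List Bool → ℕ} (hf : PAD_B M f) (hg : PAD_B M g) :
    PAD_B M (fun a => f a + g a) := by
  obtain ⟨c, hf⟩ := hf
  obtain ⟨d, hg⟩ := hg
  exact ⟨c + d, fun a => by rw [eval_add]; exact add_le_add (hf a) (hg a)⟩

lemma PAD_B.mul {M f g : List Bool → ℕ} (hf : PAD_B M f) (hg : PAD_B M g) :
    PAD_B M (fun a => f a * g a) := by
  obtain ⟨c, hf⟩ := hf
  obtain ⟨d, hg⟩ := hg
  exact ⟨c * d, fun a => by rw [eval_mul]; exact Nat.mul_le_mul (hf a) (hg a)⟩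

lemma PAD_B.poly {M f : List Bool → ℕ} (hf : PAD_B M f) (d : Polynomial ℕ) :
    PAD_B M (fun a => d.eval (f a)) := by
  obtain ⟨c, hf⟩ := hf
  exact ⟨d.comp c, fun a => by
    rw [eval_comp]; exact Pool.Agent.H54.PT.pe_mono _ (hf a)⟩

lemma PAD_B.of_pb {M f : List Bool → ℕ} (hM : ∀ w, sz w ≤ M w) (hf : PB f) : PAD_B M f := by
  obtain ⟨c, hf⟩ := hf
  exact ⟨c, fun w => (hf w).trans (Pool.Agent.H54.PT.pe_mono _ (hM w))⟩

lemma PAD_sz (w : List Bool) : sz w ≤ 4 * w.length + 1 := by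
  have := sz_list_le (l := w) (n := w.length) (m := 3) le_rfl (fun a _ => sz_bool_le a)
  omega

section

variable [S1]

lemma PAD_ct (C : ℕ) (k : List Bool → ℕ) (f : ℕ → List Bool → Bool) (hk : PT k)
    (hf : PT (fun p : ℕ × List Bool => f p.1 p.2)) :
    ∃ t : List Bool → ℕ, CT (fun w => f (C ^ k w) w) t ∧
      PAD_B (fun w => C ^ k w + sz w + 1) t := by
  set M : List Bool → ℕ := fun w => C ^ k w + sz w + 1 with hM
  have hszM : ∀ w, sz w ≤ M w := fun w => by rw [hM]; dsimp only; omega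
  have hs : PT (fun x : ℕ => C * x) := by fun_prop
  obtain ⟨cs, hcs⟩ := hs
  obtain ⟨c0, h0⟩ := S1.ITR
  have h1 := h0 ℕ (fun x : ℕ => C * x) _ hcs
  have hp : PT (fun w : List Bool => (k w, 1)) := by fun_prop
  obtain ⟨tp, h2, h3⟩ := hp.pb
  have h4 := CMP _ _ _ _ _ _ _ h2 h1
  simp only [PAD_iter] at h4
  have hkb : PAD_B M k := PAD_B.of_pb hszM hk.nat_pb
  have hCb : PAD_B M (fun w => C ^ k w) := (PAD_B.self M).mono fun w => by
    rw [hM]; dsimp only; omega
  have hSb : PAD_B M (fun w => sz w) := (PAD_B.self M).mono hszM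
  -- time of the power
  have h5 : PAD_B M (fun w => tp w + (∑ i ∈ Finset.range (k w), (cs.eval (sz (C ^ i)) + 1) +
      c0 * (sz (k w, 1) + sz (C ^ k w)))) := by
    refine (PAD_B.of_pb hszM h3).add (PAD_B.add ?_ ?_)
    · have h6 : PAD_B M (fun w => k w * (cs.eval (2 * (C ^ k w + 1) + 1) + 1)) :=
        hkb.mul (((((PAD_B.const M 2).mul (hCb.add (PAD_B.const M 1))).add
          (PAD_B.const M 1)).poly cs).add (PAD_B.const M 1))
      refine h6.mono fun w => ?_
      calc ∑ i ∈ Finset.range (k w), (cs.eval (sz (C ^ i)) + 1)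
          ≤ ∑ i ∈ Finset.range (k w), (cs.eval (2 * (C ^ k w + 1) + 1) + 1) := by
            refine Finset.sum_le_sum fun i hi => ?_
            refine Nat.add_le_add_right (Pool.Agent.H54.PT.pe_mono _ ?_) 1
            rw [sz_nat]
            have := PAD_pow C i (k w) (Finset.mem_range.1 hi).le
            omega
        _ = _ := by simp
    · refine (PAD_B.const M c0).mul (PAD_B.add ?_ ?_)
      · refine (((PAD_B.const M 2).mul hkb).add (PAD_B.const M 5)).mono fun w => ?_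
        rw [sz_prod, sz_nat, sz_nat]
      · refine (((PAD_B.const M 2).mul hCb).add (PAD_B.const M 1)).mono fun w => ?_
        rw [sz_nat]
  obtain ⟨c1, h6⟩ := S1.PAR
  have h7 := h6 _ _ _ _ _ _ _ h4 (IDT (List Bool))
  obtain ⟨cf, hcf⟩ := hf
  have h8 := CMP _ _ _ _ _ _ _ h7 hcf
  refine ⟨_, h8, ?_⟩
  refine PAD_B.add (PAD_B.add (h5.add (PAD_B.const M 1)) ((PAD_B.const M c1).mul
    (PAD_B.add (PAD_B.add hSb ?_) hSb))) (PAD_B.poly ?_ cf)
  · refine (((PAD_B.const M 2).mul hCb).add (PAD_B.const M 1)).mono fun w => ?_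
    rw [sz_nat]
  · refine ((((PAD_B.const M 2).mul hCb).add (PAD_B.const M 1)).add
      (hSb.add (PAD_B.const M 1))).mono fun w => ?_
    rw [sz_prod, sz_nat]
    exact le_of_eq (by ring)

theorem PAD : PAD_stmt := by
  intro C k f hk hf
  obtain ⟨t, ht, cP, hcP⟩ := PAD_ct C k f hk hf
  obtain ⟨c, hmac⟩ := S1.MAC
  obtain ⟨D, hD⟩ := PAD_poly (cP.comp ((4 : Polynomial ℕ) * X) + (c : Polynomial ℕ) * X)
  refine ⟨D, fun A e => ?_⟩
  obtain ⟨M, hM⟩ := hmac A e (fun w => f (C ^ k w) w) t ht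
  refine ⟨M, fun a => ?_⟩
  obtain ⟨h⟩ := hM a
  refine ⟨⟨h.toEvalsTo, h.steps_le_m.trans ?_⟩⟩
  have h1 := hD (C ^ k (e a) + (e a).length + 1) (by omega)
  refine le_trans ?_ h1
  rw [eval_add, eval_comp, eval_mul, eval_mul, eval_X, eval_natCast]
  have h2 : (4 : Polynomial ℕ).eval (C ^ k (e a) + (e a).length + 1) = 4 := by
    simp
  rw [h2]
  refine add_le_add ((hcP (e a)).trans (Pool.Agent.H54.PT.pe_mono _ ?_))
    (Nat.mul_le_mul_left _ (by omega))
  have := PAD_sz (e a)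
  dsimp only
  omega

end

end Pool.Agent.helper81.PL
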