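import Pool.Agent.helper62.PL.ITR

set_option autoImplicit false
set_option linter.dupNamespace false
set_option linter.unusedVariables false

namespace Pool.Agent.helper81.PL

open Pool.Agent.helper62 Prog Function

theorem DUP_loop (b d : ℕ) (hbd : b < d) : ∀ (l : List Bool) (S : ℕ → List Bool),
    S (d + 1) = l →
    Runs (.loop (d + 1) (.seq (.push b false) (.push d false))
      (.seq (.push b true) (.push d true))) S
      (update (update (update S (d + 1) []) b (l.reverse ++ S b)) d (l.reverse ++ S d))
      (3 * l.length + 1) := by
  intro l
  induction l with
  | nil =>
    intro S h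
    refine (Runs.loop_nil h).mono' ?_ (by simp)
    rw [← h, update_eq_self, h, List.reverse_nil, List.nil_append, List.nil_append,
      update_eq_self, update_eq_self]
  | cons c l ih =>
    intro S h
    have h1 : Runs (if c then (.seq (.push b true) (.push d true) : Prog ℕ)
        else (.seq (.push b false) (.push d false))) (update S (d + 1) l)
        (update (update (update S (d + 1) l) b (c :: S b)) d (c :: S d)) 2 := by
      have hb : (update S (d + 1) l) b = S b := update_of_ne (by omega) _ _
      have hd : (update (update S (d + 1) l) b (c :: S b)) d = S d := by
        rw [update_of_ne (by omega), update_of_ne (by omega)]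
      cases c
      · have := (Runs.push b false (update S (d + 1) l)).seq (Runs.push d false _)
        rw [hb] at this
        rw [hd] at this
        exact this
      · have := (Runs.push b true (update S (d + 1) l)).seq (Runs.push d true _)
        rw [hb] at this
        rw [hd] at this
        exact this
    have h2 := ih (update (update (update S (d + 1) l) b (c :: S b)) d (c :: S d)) (by
      rw [update_of_ne (by omega), update_of_ne (by omega), update_self])
    refine (Runs.loop_cons h h1 h2).mono' ?_ (by simp only [List.length_cons]; omega)
    funext i
    by_cases hid : i = d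
    · subst hid
      rw [update_self, update_self, update_self]
      simp
    · rw [update_of_ne hid, update_of_ne hid]
      by_cases hib : i = b
      · subst hib
        rw [update_self, update_self, update_of_ne hid, update_self]
        simp
      · rw [update_of_ne hib, update_of_ne hib]
        by_cases hi : i = d + 1
        · subst hi
          rw [update_self, update_self]
        · rw [update_of_ne hi, update_of_ne hi, update_of_ne hid, update_of_ne hib,
            update_of_ne hi]

theorem DUP : DUP_stmt := by
  intro b d S hbd hd hd1
  have r1 := Runs.pour (k := b) (k' := d + 1) (by omega) (S b) S rfl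
  rw [hd1, List.append_nil] at r1
  have r2 := DUP_loop b d hbd (S b).reverse
    (update (update S b []) (d + 1) (S b).reverse) (by rw [update_self])
  refine (r1.seq r2).mono' ?_ ?_
  · funext i
    by_cases hid : i = d
    · subst hid
      rw [update_self, update_self, List.reverse_reverse, update_of_ne (by omega),
        update_of_ne (by omega), hd, List.append_nil]
    · rw [update_of_ne hid, update_of_ne hid]
      by_cases hib : i = b
      · subst hib
        rw [update_self, List.reverse_reverse, update_of_ne (by omega), update_self,
          List.append_nil]
      · rw [update_of_ne hib]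
        by_cases hi : i = d + 1
        · subst hi
          rw [update_self, hd1]
        · rw [update_of_ne hi, update_of_ne hi, update_of_ne hib]
  · rw [List.length_reverse]
    omega

theorem CDR (hPRS : PRS_stmt) : CDR_stmt := by
  refine ⟨20, fun b => ⟨.ifp b .skip (.push b false) (.seq (.push (b + 1) true)
    (.seq (prs b) (clear (b + 2)))), ?_⟩⟩
  intro x S hS hup
  have hst := ITR_start S b hup
  cases x with
  | nil =>
    have hc : S b = false :: [] := hS
    have r1 : Runs (.push b false) (update S b []) (update S b (cd (Tr.cdr .nil))) 1 := by
      refine (Runs.push b false _).mono' ?_ le_rfl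
      rw [update_self, update_idem]
      rfl
    refine (Runs.ifp (b := false) hc r1).mono ?_
    change 2 ≤ 20 * 1
    omega
  | node u v =>
    have hc : S b = true :: (u.code ++ v.code) := hS
    have hsz : sz (Tr.node u v) = u.code.length + v.code.length + 1 := by
      change (true :: (u.code ++ v.code)).length = _
      simp only [List.length_cons, List.length_append]
    have r1 : Runs (.push (b + 1) true) (ITR_st S b (u.code ++ v.code) [] [])
        (ITR_st S b (u.code ++ v.code) [true] []) 1 := by
      refine (Runs.push (b + 1) true _).mono' ?_ le_rfl
      rw [ITR_st1, ITR_up1]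
    have r2 : Runs (prs b) (ITR_st S b (u.code ++ v.code) [true] [])
        (ITR_st S b v.code [] u.code.reverse) (6 * u.code.length + 6) := by
      refine (hPRS b u v.code _ (ITR_st0 _ _ _ _ _) (ITR_st1 _ _ _ _ _)).mono' ?_ le_rfl
      rw [ITR_up0, ITR_up1, ITR_st2, ITR_up2, List.append_nil]
    have r3 : Runs (clear (b + 2)) (ITR_st S b v.code [] u.code.reverse)
        (ITR_st S b v.code [] []) (2 * u.code.length + 1) := by
      refine (Runs.clear u.code.reverse _ (ITR_st2 _ _ _ _ _)).mono' ?_
        (by rw [List.length_reverse])
      rw [ITR_up2]
    have hseq := r1.seq (r2.seq r3)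
    rw [← ITR_up0 S b (S b) [] [] (u.code ++ v.code)] at hseq
    have hall := Runs.ifp (pn := .skip) (pf := .push b false) (b := true) (k := b)
      (l := u.code ++ v.code) (S := ITR_st S b (S b) [] []) (by rw [ITR_st0, hc]) hseq
    rw [← hst, ITR_end S b _ hup] at hall
    refine hall.mono ?_
    dsimp only
    rw [hsz]
    omega

theorem SIZ : SIZ_stmt := by
  refine ⟨20, fun α _ b => ⟨.seq (.loop b (.push (b + 1) true) (.push (b + 1) true))
    (.seq (.push b false) (.loop (b + 1) .skip (.seq (.push b false) (.push b true)))), ?_⟩⟩
  intro a S hS hup
  have hst := ITR_start S b hup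
  have r1 : ∀ (l : List Bool) (m : ℕ), Runs (.loop b (.push (b + 1) true) (.push (b + 1) true))
      (ITR_st S b l (List.replicate m true) [])
      (ITR_st S b [] (List.replicate (l.length + m) true) []) (2 * l.length + 1) := by
    intro l
    induction l with
    | nil =>
      intro m
      refine (Runs.loop_nil (ITR_st0 _ _ _ _ _)).mono' ?_ (by simp)
      simp
    | cons c l ih =>
      intro m
      have h := ih (m + 1)
      have h1 : Runs (if c then (.push (b + 1) true : Prog ℕ) else (.push (b + 1) true))
          (update (ITR_st S b (c :: l) (List.replicate m true) []) b l)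
          (ITR_st S b l (List.replicate (m + 1) true) []) 1 := by
        rw [ITR_up0]
        have h2 : Runs (.push (b + 1) true) (ITR_st S b l (List.replicate m true) [])
            (ITR_st S b l (List.replicate (m + 1) true) []) 1 := by
          refine (Runs.push (b + 1) true _).mono' ?_ le_rfl
          rw [ITR_st1, ITR_up1]
          rfl
        cases c
        · exact h2
        · exact h2
      refine (Runs.loop_cons (ITR_st0 _ _ _ _ _) h1 h).mono' ?_
        (by simp only [List.length_cons]; omega)
      congr 2
      simp only [List.length_cons]
      omega
  have r2 : Runs (.push b false) (ITR_st S b [] (List.replicate (sz a) true) [])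
      (ITR_st S b (natRep 0).code (List.replicate (sz a) true) []) 1 := by
    refine (Runs.push b false _).mono' ?_ le_rfl
    rw [ITR_st0, ITR_up0]
    rfl
  have r3 : ∀ (n m : ℕ), Runs (.loop (b + 1) .skip (.seq (.push b false) (.push b true)))
      (ITR_st S b (natRep m).code (List.replicate n true) [])
      (ITR_st S b (natRep (n + m)).code [] []) (3 * n + 1) := by
    intro n
    induction n with
    | zero =>
      intro m
      refine (Runs.loop_nil (ITR_st1 _ _ _ _ _)).mono' ?_ (by simp)
      simp
    | succ n ih =>
      intro m
      have h := ih (m + 1)
      have h1 : Runs (if true then (.seq (.push b false) (.push b true) : Prog ℕ) else .skip)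
          (update (ITR_st S b (natRep m).code (List.replicate (n + 1) true) []) (b + 1)
            (List.replicate n true))
          (ITR_st S b (natRep (m + 1)).code (List.replicate n true) []) 2 := by
        rw [ITR_up1]
        refine ((Runs.push b false _).seq (Runs.push b true _)).mono' ?_ le_rfl
        rw [ITR_st0, ITR_up0, ITR_st0, ITR_up0]
        rfl
      refine (Runs.loop_cons (by rw [ITR_st1, List.replicate_succ]) h1 h).mono' ?_ (by omega)
      rw [show n + (m + 1) = n + 1 + m by omega]
  have h1 := r1 (cd a) 0
  have h3 := r3 (sz a) 0
  rw [Nat.add_zero] at h1 h3
  have hall := h1.seq (r2.seq h3)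
  have hS' : S b = cd a := hS
  rw [List.replicate_zero, ← hS', ← hst, ITR_end S b _ hup] at hall
  refine hall.mono ?_
  have hpos : 1 ≤ sz a := by
    change 1 ≤ (Rep.rep a).code.length
    cases Rep.rep a with
    | nil => exact le_rfl
    | node u v =>
      change 1 ≤ (true :: (u.code ++ v.code)).length
      simp
  have h5 : (S b).length = sz a := by rw [hS']; rfl
  rw [h5]
  dsimp only
  omega

end Pool.Agent.helper81.PL
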