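import Pool.Agent.helper81.PL.SpecA

set_option autoImplicit false
set_option linter.dupNamespace false
set_option linter.unusedVariables false

namespace Pool.Agent.helper81.PL

open Pool.Agent.helper62 Prog Function

/-- Parallel comparison: the rest of the second word and the marks of the mismatches. -/
def EQT_cm : List Bool → List Bool → List Bool → List Bool × List Bool
  | [], l, acc => (l, acc)
  | _ :: cs, [], acc => EQT_cm cs [] (true :: acc)
  | c :: cs, d :: l, acc => EQT_cm cs l (if c = d then acc else true :: acc)

theorem EQT_cm_len : ∀ (cs l acc : List Bool),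
    (EQT_cm cs l acc).1.length ≤ l.length ∧ (EQT_cm cs l acc).2.length ≤ acc.length + cs.length ∧
      acc.length ≤ (EQT_cm cs l acc).2.length := by
  intro cs
  induction cs with
  | nil =>
    intro l acc
    simp [EQT_cm]
  | cons c cs ih =>
    intro l acc
    cases l with
    | nil =>
      obtain ⟨h1, h2, h3⟩ := ih [] (true :: acc)
      simp only [EQT_cm, List.length_cons, List.length_nil] at *
      omega
    | cons d l =>
      obtain ⟨h1, h2, h3⟩ := ih l (if c = d then acc else true :: acc)
      simp only [EQT_cm, List.length_cons] at *
      by_cases hcd : c = d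
      · rw [if_pos hcd] at h1 h2 h3 ⊢
        omega
      · rw [if_neg hcd] at h1 h2 h3 ⊢
        simp only [List.length_cons] at *
        omega

theorem EQT_cm_nil : ∀ (cs l : List Bool), (EQT_cm cs l []).2 = [] → ∃ u, l = cs ++ u := by
  intro cs
  induction cs with
  | nil => exact fun l _ => ⟨l, rfl⟩
  | cons c cs ih =>
    intro l h
    cases l with
    | nil =>
      have := (EQT_cm_len cs [] [true]).2.2
      simp only [EQT_cm] at h
      rw [h] at this
      simp at this
    | cons d l =>
      simp only [EQT_cm] at h
      by_cases hcd : c = d
      · rw [if_pos hcd] at h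
        obtain ⟨u, hu⟩ := ih l h
        exact ⟨u, by rw [hu, hcd]; rfl⟩
      · rw [if_neg hcd] at h
        have := (EQT_cm_len cs l [true]).2.2
        rw [h] at this
        simp at this

theorem EQT_cm_append : ∀ (cs u acc : List Bool), EQT_cm cs (cs ++ u) acc = (u, acc) := by
  intro cs
  induction cs with
  | nil => exact fun u acc => rfl
  | cons c cs ih =>
    intro u acc
    simp only [List.cons_append, EQT_cm, if_true]
    exact ih u acc

theorem EQT_cm_true : ∀ (cs l acc : List Bool), (∀ x ∈ acc, x = true) →
    ∀ x ∈ (EQT_cm cs l acc).2, x = true := by
  intro cs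
  induction cs with
  | nil => exact fun l acc h => h
  | cons c cs ih =>
    intro l acc h
    have h' : ∀ x ∈ (true :: acc), x = true := by
      intro x hx
      rcases List.mem_cons.1 hx with h1 | h1
      · exact h1
      · exact h x h1
    cases l with
    | nil => exact ih [] (true :: acc) h'
    | cons d l =>
      simp only [EQT_cm]
      by_cases hcd : c = d
      · rw [if_pos hcd]
        exact ih l acc h
      · rw [if_neg hcd]
        exact ih l (true :: acc) h'

/-- The comparison loop. -/
def EQT_loop (b : ℕ) : Prog ℕ :=
  .loop (b + 1) (.ifp b (.push (b + 3) true) .skip (.push (b + 3) true))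
    (.ifp b (.push (b + 3) true) (.push (b + 3) true) .skip)

theorem EQT_loop_runs (b : ℕ) : ∀ (cs l acc : List Bool) (S : ℕ → List Bool), S (b + 1) = cs →
    S b = l → S (b + 3) = acc →
    Runs (EQT_loop b) S (update (update (update S (b + 1) []) b (EQT_cm cs l acc).1) (b + 3)
      (EQT_cm cs l acc).2) (3 * cs.length + 1) := by
  intro cs
  induction cs with
  | nil =>
    intro l acc S h1 h2 h3
    have e : update (update (update S (b + 1) []) b (EQT_cm [] l acc).1) (b + 3)
        (EQT_cm [] l acc).2 = S := by
      simp only [EQT_cm]
      rw [← h1, update_eq_self, ← h2, update_eq_self, ← h3, update_eq_self]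
    rw [e]
    exact (Runs.loop_nil h1).mono (by simp)
  | cons c cs ih =>
    intro l acc S h1 h2 h3
    -- one round
    have key : ∀ (l' acc' : List Bool),
        EQT_cm (c :: cs) l acc = EQT_cm cs l' acc' →
        Runs (if c then (.ifp b (.push (b + 3) true) (.push (b + 3) true) .skip)
          else (.ifp b (.push (b + 3) true) .skip (.push (b + 3) true))) (update S (b + 1) cs)
          (update (update (update S (b + 1) cs) b l') (b + 3) acc') 2 →
        Runs (EQT_loop b) S (update (update (update S (b + 1) []) b (EQT_cm (c :: cs) l acc).1)
          (b + 3) (EQT_cm (c :: cs) l acc).2) (3 * (c :: cs).length + 1) := by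
      intro l' acc' he hr
      have h4 := ih l' acc' (update (update (update S (b + 1) cs) b l') (b + 3) acc')
        (by rw [update_of_ne (by omega), update_of_ne (by omega), update_self])
        (by rw [update_of_ne (by omega), update_self]) (by rw [update_self])
      refine (Runs.loop_cons h1 hr h4).mono' ?_ (by simp only [List.length_cons]; omega)
      rw [he]
      funext i
      by_cases hi3 : i = b + 3
      · subst hi3
        rw [update_self, update_self]
      · rw [update_of_ne hi3, update_of_ne hi3]
        by_cases hi : i = b
        · subst hi
          rw [update_self, update_self]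
        · rw [update_of_ne hi, update_of_ne hi]
          by_cases hi1 : i = b + 1
          · subst hi1
            rw [update_self, update_self]
          · rw [update_of_ne hi1, update_of_ne hi1, update_of_ne hi3, update_of_ne hi,
              update_of_ne hi1]
    have hb0 : (update S (b + 1) cs) b = l := by rw [update_of_ne (by omega), h2]
    have hb3 : (update S (b + 1) cs) (b + 3) = acc := by rw [update_of_ne (by omega), h3]
    cases l with
    | nil =>
      refine key [] (true :: acc) rfl ?_
      have e : update (update (update S (b + 1) cs) b []) (b + 3) (true :: acc) =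
          update (update S (b + 1) cs) (b + 3) (true :: (update S (b + 1) cs) (b + 3)) := by
        rw [hb3, ← hb0, update_eq_self]
      rw [e]
      cases c
      · exact ⟨1 + 1, le_rfl, Exec.ifp_nil hb0 (Exec.push (b + 3) true _)⟩
      · exact ⟨1 + 1, le_rfl, Exec.ifp_nil hb0 (Exec.push (b + 3) true _)⟩
    | cons d l =>
      refine key l (if c = d then acc else true :: acc) rfl ?_
      have hself : update (update (update S (b + 1) cs) b l) (b + 3) acc =
          update (update S (b + 1) cs) b l := by
        have : (update (update S (b + 1) cs) b l) (b + 3) = acc := by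
          rw [update_of_ne (by omega), hb3]
        rw [← this, update_eq_self]
      have hpush : update (update (update S (b + 1) cs) b l) (b + 3) (true :: acc) =
          update (update (update S (b + 1) cs) b l) (b + 3)
            (true :: (update (update S (b + 1) cs) b l) (b + 3)) := by
        rw [update_of_ne (by omega : b + 3 ≠ b), hb3]
      cases c <;> cases d
      · change Runs _ _ (update (update (update S (b + 1) cs) b l) (b + 3) acc) 2
        rw [hself]
        exact ⟨1 + 1, le_rfl, Exec.ifp_false hb0 (Exec.skip _)⟩
      · change Runs _ _ (update (update (update S (b + 1) cs) b l) (b + 3) (true :: acc)) 2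
        rw [hpush]
        exact ⟨1 + 1, le_rfl, Exec.ifp_true hb0 (Exec.push (b + 3) true _)⟩
      · change Runs _ _ (update (update (update S (b + 1) cs) b l) (b + 3) (true :: acc)) 2
        rw [hpush]
        exact ⟨1 + 1, le_rfl, Exec.ifp_false hb0 (Exec.push (b + 3) true _)⟩
      · change Runs _ _ (update (update (update S (b + 1) cs) b l) (b + 3) acc) 2
        rw [hself]
        exact ⟨1 + 1, le_rfl, Exec.ifp_true hb0 (Exec.skip _)⟩

/-- The program. -/
def EQT_prog (b : ℕ) : Prog ℕ :=
  .ifp b .skip .skip (.seq (.push (b + 1) true) (.seq (prs b) (.seq (pour (b + 2) (b + 1))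
    (.seq (EQT_loop b) (.seq (clear b) (.ifp (b + 3) (pushes b [false, false, true])
      (.seq (clear (b + 3)) (.push b false)) (.seq (clear (b + 3)) (.push b false))))))))

theorem EQT (hPFX : PFX_stmt) (hPRS : PRS_stmt) : EQT_stmt := by
  refine ⟨40, fun b => ⟨EQT_prog b, ?_⟩⟩
  rintro ⟨x, y⟩ S hS hup
  have hcode : S b = true :: (x.code ++ y.code) := hS
  have hsz : sz ((x, y) : Tr × Tr) = x.code.length + y.code.length + 1 := by
    change (true :: (x.code ++ y.code)).length = _
    simp only [List.length_cons, List.length_append]
  -- push
  have r1 := Runs.push (b + 1) true (update S b (x.code ++ y.code))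
  set S₁ := update (update S b (x.code ++ y.code)) (b + 1)
    (true :: (update S b (x.code ++ y.code)) (b + 1)) with hS₁
  have a1 : S₁ b = x.code ++ y.code := by rw [hS₁, update_of_ne (by omega), update_self]
  have a2 : S₁ (b + 1) = [true] := by
    rw [hS₁, update_self, update_of_ne (by omega), hup (b + 1) (by omega)]
  have a3 : S₁ (b + 2) = [] := by
    rw [hS₁, update_of_ne (by omega), update_of_ne (by omega), hup (b + 2) (by omega)]
  have a4 : S₁ (b + 3) = [] := by
    rw [hS₁, update_of_ne (by omega), update_of_ne (by omega), hup (b + 3) (by omega)]
  -- read the first tree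
  have r2 := hPRS b x y.code S₁ a1 a2
  set S₂ := update (update (update S₁ b y.code) (b + 1) []) (b + 2)
    (x.code.reverse ++ S₁ (b + 2)) with hS₂
  have b1 : S₂ b = y.code := by
    rw [hS₂, update_of_ne (by omega), update_of_ne (by omega), update_self]
  have b2 : S₂ (b + 1) = [] := by rw [hS₂, update_of_ne (by omega), update_self]
  have b3 : S₂ (b + 2) = x.code.reverse := by rw [hS₂, update_self, a3, List.append_nil]
  have b4 : S₂ (b + 3) = [] := by
    rw [hS₂, update_of_ne (by omega), update_of_ne (by omega), update_of_ne (by omega), a4]
  have r3 := Runs.pour (k := b + 2) (k' := b + 1) (by omega) x.code.reverse S₂ b3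
  set S₃ := update (update S₂ (b + 2) []) (b + 1) (x.code.reverse.reverse ++ S₂ (b + 1)) with hS₃
  have c1 : S₃ b = y.code := by
    rw [hS₃, update_of_ne (by omega), update_of_ne (by omega), b1]
  have c2 : S₃ (b + 1) = x.code := by
    rw [hS₃, update_self, b2, List.reverse_reverse, List.append_nil]
  have c3 : S₃ (b + 2) = [] := by rw [hS₃, update_of_ne (by omega), update_self]
  have c4 : S₃ (b + 3) = [] := by
    rw [hS₃, update_of_ne (by omega), update_of_ne (by omega), b4]
  have r4 := EQT_loop_runs b x.code y.code [] S₃ c2 c1 c4
  set R := EQT_cm x.code y.code [] with hR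
  set S₄ := update (update (update S₃ (b + 1) []) b R.1) (b + 3) R.2 with hS₄
  have d1 : S₄ b = R.1 := by rw [hS₄, update_of_ne (by omega), update_self]
  have d4 : S₄ (b + 3) = R.2 := by rw [hS₄, update_self]
  have r5 := Runs.clear (k := b) R.1 S₄ d1
  set S₅ := update S₄ b [] with hS₅
  have e1 : S₅ b = [] := by rw [hS₅, update_self]
  have e4 : S₅ (b + 3) = R.2 := by rw [hS₅, update_of_ne (by omega), d4]
  have hlen := EQT_cm_len x.code y.code []
  rw [← hR] at hlen
  simp only [List.length_nil, zero_add] at hlen
  -- all other stacks
  have hoth : ∀ i, i ≠ b → i ≠ b + 3 → S₅ i = S i := by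
    intro i hi hi3
    by_cases hi1 : i = b + 1
    · subst hi1
      rw [hS₅, update_of_ne hi, hS₄, update_of_ne hi3, update_of_ne hi, update_self,
        hup (b + 1) (by omega)]
    · by_cases hi2 : i = b + 2
      · subst hi2
        rw [hS₅, update_of_ne hi, hS₄, update_of_ne hi3, update_of_ne hi, update_of_ne hi1, c3,
          hup (b + 2) (by omega)]
      · rw [hS₅, update_of_ne hi, hS₄, update_of_ne hi3, update_of_ne hi, update_of_ne hi1, hS₃,
          update_of_ne hi1, update_of_ne hi2, hS₂, update_of_ne hi2, update_of_ne hi1,
          update_of_ne hi, hS₁, update_of_ne hi1, update_of_ne hi]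
  have r6 : Runs (.ifp (b + 3) (pushes b [false, false, true])
      (.seq (clear (b + 3)) (.push b false)) (.seq (clear (b + 3)) (.push b false))) S₅
      (update S b (cd (decide (x = y)))) (2 * x.code.length + 6) := by
    by_cases hxy : x = y
    · have hR2 : R.2 = [] := by
        rw [hR, hxy]
        have := EQT_cm_append y.code [] []
        rw [List.append_nil] at this
        rw [this]
      have h := Runs.pushes (k := b) [false, false, true] S₅
      obtain ⟨n, hn, hex⟩ := h
      refine ⟨1 + n, ?_, ?_⟩
      · simp only [List.length_cons, List.length_nil] at hn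
        omega
      · refine Exec.ifp_nil (by rw [e4, hR2]) ?_
        have e : update S b (cd (decide (x = y))) =
            update S₅ b ([false, false, true].reverse ++ S₅ b) := by
          have hcd : cd (decide (x = y)) = [true, false, false] := by
            rw [decide_eq_true hxy]
            rfl
          rw [hcd, e1]
          funext i
          by_cases hi : i = b
          · subst hi
            rw [update_self, update_self]
            rfl
          · rw [update_of_ne hi, update_of_ne hi]
            by_cases hi3 : i = b + 3
            · subst hi3
              rw [e4, hR2, hup (b + 3) (by omega)]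
            · rw [hoth i hi hi3]
        rw [e]
        exact hex
    · have hR2 : R.2 ≠ [] := by
        intro h0
        rw [hR] at h0
        obtain ⟨u, hu⟩ := EQT_cm_nil _ _ h0
        have := hPFX x y u [] (by rw [← hu, List.append_nil])
        exact hxy this.1
      obtain ⟨c, m, hcm⟩ := List.exists_cons_of_ne_nil hR2
      have hclear := Runs.clear (k := b + 3) m (update S₅ (b + 3) m) (by rw [update_self])
      rw [update_idem] at hclear
      have hpush := Runs.push b false (update S₅ (b + 3) [])
      have hrun := hclear.seq hpush
      have hml : m.length ≤ x.code.length := by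
        have := hlen.2.1
        rw [hcm, List.length_cons] at this
        omega
      have e : update (update S₅ (b + 3) []) b (false :: (update S₅ (b + 3) []) b) =
          update S b (cd (decide (x = y))) := by
        have hcd : cd (decide (x = y)) = [false] := by
          rw [decide_eq_false hxy]
          rfl
        rw [hcd, update_of_ne (by omega : b ≠ b + 3), e1]
        funext i
        by_cases hi : i = b
        · subst hi
          rw [update_self, update_self]
        · rw [update_of_ne hi, update_of_ne hi]
          by_cases hi3 : i = b + 3
          · subst hi3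
            rw [update_self, hup (b + 3) (by omega)]
          · rw [update_of_ne hi3, hoth i hi hi3]
      rw [e] at hrun
      refine (Runs.ifp (b := c) (l := m) (by rw [e4, hcm]) ?_).mono
        (by omega : 1 + (2 * m.length + 1 + 1) ≤ _)
      cases c
      · exact hrun
      · exact hrun
  have hall := Runs.ifp (pn := .skip) (pf := .skip) (b := true) hcode
    (r1.seq (r2.seq (r3.seq (r4.seq (r5.seq r6)))))
  refine hall.mono ?_
  dsimp only
  rw [hsz]
  simp only [List.length_reverse]
  have := hlen.1
  omega

end Pool.Agent.helper81.PL
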