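import Pool.Agent.helper81.PL.SpecA

set_option autoImplicit false
set_option linter.dupNamespace false
set_option linter.unusedVariables false

namespace Pool.Agent.helper81.PL

open Pool.Agent.helper62 Prog Function

/-- Three stacks above given ones. -/
def ITR_st (S : ℕ → List Bool) (b : ℕ) (x y z : List Bool) : ℕ → List Bool :=
  fun i => if i = b then x else if i = b + 1 then y else if i = b + 2 then z else S i

section st

variable (S : ℕ → List Bool) (b : ℕ) (x y z l : List Bool)

theorem ITR_st0 : ITR_st S b x y z b = x := by simp [ITR_st]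

theorem ITR_st1 : ITR_st S b x y z (b + 1) = y := by simp [ITR_st]

theorem ITR_st2 : ITR_st S b x y z (b + 2) = z := by simp [ITR_st]

theorem ITR_up0 : update (ITR_st S b x y z) b l = ITR_st S b l y z := by
  funext i
  by_cases hi : i = b
  · subst hi
    rw [update_self, ITR_st0]
  · rw [update_of_ne hi]
    simp [ITR_st, hi]

theorem ITR_up1 : update (ITR_st S b x y z) (b + 1) l = ITR_st S b x l z := by
  funext i
  by_cases hi : i = b + 1
  · subst hi
    rw [update_self, ITR_st1]
  · rw [update_of_ne hi]
    simp [ITR_st, hi]

theorem ITR_up2 : update (ITR_st S b x y z) (b + 2) l = ITR_st S b x y l := by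
  funext i
  by_cases hi : i = b + 2
  · subst hi
    rw [update_self, ITR_st2]
  · rw [update_of_ne hi]
    simp [ITR_st, hi]

theorem ITR_start (hup : ∀ i, b < i → S i = []) : S = ITR_st S b (S b) [] [] := by
  funext i
  by_cases hi : i = b
  · subst hi
    rw [ITR_st0]
  · by_cases hi1 : i = b + 1
    · subst hi1
      rw [ITR_st1, hup _ (by omega)]
    · by_cases hi2 : i = b + 2
      · subst hi2
        rw [ITR_st2, hup _ (by omega)]
      · simp [ITR_st, hi, hi1, hi2]

theorem ITR_end (hup : ∀ i, b < i → S i = []) : ITR_st S b x [] [] = update S b x := by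
  funext i
  by_cases hi : i = b
  · subst hi
    rw [ITR_st0, update_self]
  · rw [update_of_ne hi]
    by_cases hi1 : i = b + 1
    · subst hi1
      rw [ITR_st1, hup _ (by omega)]
    · by_cases hi2 : i = b + 2
      · subst hi2
        rw [ITR_st2, hup _ (by omega)]
      · simp [ITR_st, hi, hi1, hi2]

end st

/-- The reversed code of a number. -/
def ITR_w : ℕ → List Bool
  | 0 => []
  | n + 1 => false :: true :: ITR_w n

theorem ITR_w_append (n : ℕ) : ITR_w n ++ [false, true] = ITR_w (n + 1) := by
  induction n with
  | zero => rfl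
  | succ n ih =>
    have : ITR_w (n + 1) ++ [false, true] = false :: true :: (ITR_w n ++ [false, true]) := rfl
    rw [this, ih]
    rfl

theorem ITR_code (n : ℕ) : (natRep n).code.reverse = false :: ITR_w n := by
  induction n with
  | zero => rfl
  | succ n ih =>
    have e : (natRep (n + 1)).code = true :: (false :: (natRep n).code) := rfl
    rw [e, List.reverse_cons, List.reverse_cons, ih, List.append_assoc, ← ITR_w_append]
    rfl

theorem ITR_len (n : ℕ) : n ≤ (natRep n).code.length := by
  induction n with
  | zero => exact Nat.zero_le _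
  | succ n ih =>
    have e : (natRep (n + 1)).code = true :: (false :: (natRep n).code) := rfl
    rw [e, List.length_cons, List.length_cons]
    omega

theorem ITR_count : ∀ (l : List Bool) (S : ℕ → List Bool) (b : ℕ) (x y : List Bool),
    Runs (.loop (b + 2) .skip (.push (b + 1) true)) (ITR_st S b x y l)
      (ITR_st S b x (List.replicate (l.count true) true ++ y) []) (2 * l.length + 1) := by
  intro l
  induction l with
  | nil =>
    intro S b x y
    exact (Runs.loop_nil (ITR_st2 S b x y [])).mono (by simp)
  | cons c l ih =>
    intro S b x y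
    cases c
    · have h := ih S b x y
      have h1 : Runs (if false then (.push (b + 1) true) else (.skip : Prog ℕ))
          (update (ITR_st S b x y (false :: l)) (b + 2) l) (ITR_st S b x y l) 1 := by
        rw [ITR_up2]
        exact Runs.skip _
      refine (Runs.loop_cons (ITR_st2 S b x y (false :: l)) h1 h).mono' ?_
        (by simp only [List.length_cons]; omega)
      rw [List.count_cons_of_ne (by decide)]
    · have h := ih S b x (true :: y)
      have h1 : Runs (if true then (.push (b + 1) true) else (.skip : Prog ℕ))
          (update (ITR_st S b x y (true :: l)) (b + 2) l) (ITR_st S b x (true :: y) l) 1 := by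
        rw [ITR_up2]
        refine (Runs.push (b + 1) true _).mono' ?_ le_rfl
        rw [ITR_st1, ITR_up1]
      refine (Runs.loop_cons (ITR_st2 S b x y (true :: l)) h1 h).mono' ?_
        (by simp only [List.length_cons]; omega)
      rw [List.count_cons_self]
      congr 1
      rw [List.replicate_succ']
      simp

theorem ITR_w_count (n : ℕ) : (ITR_w n).count true = n := by
  induction n with
  | zero => rfl
  | succ n ih => simp [ITR_w, ih]

theorem ITR_iter {α : Type} [Rep α] (s : α → α) (t : α → ℕ) (b : ℕ) (p : Prog ℕ)
    (hp : Calc s t (b + 1) p) (S : ℕ → List Bool) (hup : ∀ i, b < i → S i = []) :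
    ∀ (n : ℕ) (a : α), Runs (.loop b .skip p) (ITR_st S b (List.replicate n true) (cd a) [])
      (ITR_st S b [] (cd (s^[n] a)) []) ((∑ i ∈ Finset.range n, (t (s^[i] a) + 1)) + 1) := by
  intro n
  induction n with
  | zero =>
    intro a
    exact (Runs.loop_nil (ITR_st0 S b [] (cd a) [])).mono (by simp)
  | succ n ih =>
    intro a
    have h1 : Runs (if true then p else (.skip : Prog ℕ))
        (update (ITR_st S b (List.replicate (n + 1) true) (cd a) []) b (List.replicate n true))
        (ITR_st S b (List.replicate n true) (cd (s a)) []) (t a) := by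
      rw [ITR_up0]
      have := hp a (ITR_st S b (List.replicate n true) (cd a) []) (ITR_st1 _ _ _ _ _) (by
        intro i hi
        by_cases hi2 : i = b + 2
        · subst hi2
          exact ITR_st2 _ _ _ _ _
        · have : ITR_st S b (List.replicate n true) (cd a) [] i = S i := by
            simp [ITR_st, hi2, show i ≠ b by omega, show i ≠ b + 1 by omega]
          rw [this]
          exact hup i (by omega))
      rw [ITR_up1] at this
      exact this
    have h2 := ih (s a)
    refine (Runs.loop_cons (by rw [ITR_st0, List.replicate_succ]) h1 h2).mono' ?_ ?_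
    · rw [← Function.iterate_succ_apply]
    · rw [Finset.sum_range_succ' _ n]
      simp only [Function.iterate_succ_apply, Function.iterate_zero, id]
      omega

/-- The program. -/
def ITR_prog (b : ℕ) (p : Prog ℕ) : Prog ℕ :=
  .ifp b .skip .skip (.seq (.push (b + 1) true) (.seq (prs b)
    (.seq (.loop (b + 2) .skip (.push (b + 1) true)) (.seq (pour b (b + 2)) (.seq (pour (b + 1) b)
      (.seq (pour (b + 2) (b + 1)) (.seq (.loop b .skip p) (.seq (pour (b + 1) (b + 2))
        (pour (b + 2) b)))))))))

theorem ITR (hPRS : PRS_stmt) : ITR_stmt := by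
  refine ⟨40, fun α _ s t hs b => ?_⟩
  obtain ⟨p, hp⟩ := hs (b + 1)
  refine ⟨ITR_prog b p, ?_⟩
  rintro ⟨n, x⟩ S hS hup
  have hcode : S b = true :: ((natRep n).code ++ cd x) := hS
  have hsz : sz ((n, x) : ℕ × α) = (natRep n).code.length + (cd x).length + 1 := by
    change (true :: ((natRep n).code ++ cd x)).length = _
    simp only [List.length_cons, List.length_append]
  have hst := ITR_start S b hup
  have r1 : Runs (.push (b + 1) true) (ITR_st S b ((natRep n).code ++ cd x) [] [])
      (ITR_st S b ((natRep n).code ++ cd x) [true] []) 1 := by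
    refine (Runs.push (b + 1) true _).mono' ?_ le_rfl
    rw [ITR_st1, ITR_up1]
  have r2 : Runs (prs b) (ITR_st S b ((natRep n).code ++ cd x) [true] [])
      (ITR_st S b (cd x) [] (natRep n).code.reverse) (6 * (natRep n).code.length + 6) := by
    refine (hPRS b (natRep n) (cd x) _ (ITR_st0 _ _ _ _ _) (ITR_st1 _ _ _ _ _)).mono' ?_ le_rfl
    rw [ITR_up0, ITR_up1, ITR_st2, ITR_up2, List.append_nil]
  have r3 : Runs (.loop (b + 2) .skip (.push (b + 1) true))
      (ITR_st S b (cd x) [] (natRep n).code.reverse)
      (ITR_st S b (cd x) (List.replicate n true) []) (2 * (natRep n).code.length + 1) := by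
    refine (ITR_count _ S b (cd x) []).mono' ?_ (by rw [List.length_reverse])
    rw [ITR_code, List.count_cons_of_ne (by decide), ITR_w_count, List.append_nil]
  have r4 : Runs (pour b (b + 2)) (ITR_st S b (cd x) (List.replicate n true) [])
      (ITR_st S b [] (List.replicate n true) (cd x).reverse) (2 * (cd x).length + 1) := by
    refine (Runs.pour (by omega) (cd x) _ (ITR_st0 _ _ _ _ _)).mono' ?_ le_rfl
    rw [ITR_up0, ITR_st2, ITR_up2, List.append_nil]
  have r5 : Runs (pour (b + 1) b) (ITR_st S b [] (List.replicate n true) (cd x).reverse)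
      (ITR_st S b (List.replicate n true) [] (cd x).reverse) (2 * n + 1) := by
    refine (Runs.pour (by omega) (List.replicate n true) _ (ITR_st1 _ _ _ _ _)).mono' ?_
      (by rw [List.length_replicate])
    rw [ITR_up1, ITR_st0, ITR_up0, List.append_nil, List.reverse_replicate]
  have r6 : Runs (pour (b + 2) (b + 1)) (ITR_st S b (List.replicate n true) [] (cd x).reverse)
      (ITR_st S b (List.replicate n true) (cd x) []) (2 * (cd x).length + 1) := by
    refine (Runs.pour (by omega) (cd x).reverse _ (ITR_st2 _ _ _ _ _)).mono' ?_
      (by rw [List.length_reverse])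
    rw [ITR_up2, ITR_st1, ITR_up1, List.append_nil, List.reverse_reverse]
  have r7 := ITR_iter s t b p hp S hup n x
  have r8 : Runs (pour (b + 1) (b + 2)) (ITR_st S b [] (cd (s^[n] x)) [])
      (ITR_st S b [] [] (cd (s^[n] x)).reverse) (2 * (cd (s^[n] x)).length + 1) := by
    refine (Runs.pour (by omega) (cd (s^[n] x)) _ (ITR_st1 _ _ _ _ _)).mono' ?_ le_rfl
    rw [ITR_up1, ITR_st2, ITR_up2, List.append_nil]
  have r9 : Runs (pour (b + 2) b) (ITR_st S b [] [] (cd (s^[n] x)).reverse)
      (ITR_st S b (cd (s^[n] x)) [] []) (2 * (cd (s^[n] x)).length + 1) := by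
    refine (Runs.pour (by omega) (cd (s^[n] x)).reverse _ (ITR_st2 _ _ _ _ _)).mono' ?_
      (by rw [List.length_reverse])
    rw [ITR_up2, ITR_st0, ITR_up0, List.append_nil, List.reverse_reverse]
  have hseq := r1.seq (r2.seq (r3.seq (r4.seq (r5.seq (r6.seq (r7.seq (r8.seq r9)))))))
  rw [← ITR_up0 S b (S b) [] [] ((natRep n).code ++ cd x)] at hseq
  have hall := Runs.ifp (pn := .skip) (pf := .skip) (b := true) (k := b)
    (l := (natRep n).code ++ cd x) (S := ITR_st S b (S b) [] []) (by rw [ITR_st0, hcode]) hseq
  rw [← hst, ITR_end S b _ hup] at hall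
  refine hall.mono ?_
  dsimp only
  have h1 := ITR_len n
  have h2 : sz (s^[n] x) = (cd (s^[n] x)).length := rfl
  rw [hsz, h2]
  omega

end Pool.Agent.helper81.PL
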