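import Pool.Agent.helper81.PL.SpecA

set_option autoImplicit false
set_option linter.dupNamespace false
set_option linter.unusedVariables false

namespace Pool.Agent.helper81.PL

open Pool.Agent.helper62 Prog Function

theorem PFX : PFX_stmt := by
  intro a
  induction a with
  | nil =>
    intro b u v h
    cases b with
    | nil =>
      simp only [Tr.code, List.cons_append, List.nil_append, List.cons.injEq, true_and] at h
      exact ⟨rfl, h⟩
    | node b₁ b₂ => simp [Tr.code] at h
  | node a₁ a₂ ih₁ ih₂ =>
    intro b u v h
    cases b with
    | nil => simp [Tr.code] at h
    | node b₁ b₂ =>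
      simp only [Tr.code, List.cons_append, List.cons.injEq, true_and, List.append_assoc] at h
      obtain ⟨h1, h2⟩ := ih₁ b₁ _ _ h
      obtain ⟨h3, h4⟩ := ih₂ b₂ _ _ h2
      exact ⟨by rw [h1, h3], h4⟩

theorem PRS_gen (b : ℕ) : ∀ (a : Tr) (l m : List Bool) (S S'' : ℕ → List Bool) (t : ℕ),
    S b = a.code ++ l → S (b + 1) = true :: m →
    Runs (prs b) (update (update (update S b l) (b + 1) m) (b + 2)
      (a.code.reverse ++ S (b + 2))) S'' t →
    Runs (prs b) S S'' (t + 6 * a.code.length) := by
  intro a
  induction a with
  | nil =>
    intro l m S S'' t h1 h2 h3
    have hb : Runs (.ifp b .skip (.push (b + 2) false)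
        (.seq (.push (b + 2) true) (.seq (.push (b + 1) true) (.push (b + 1) true))))
        (update S (b + 1) m)
        (update (update (update S b l) (b + 1) m) (b + 2) (Tr.nil.code.reverse ++ S (b + 2)))
        (1 + 1) := by
      have h4 : (update S (b + 1) m) b = false :: l := by
        rw [update_of_ne (by omega), h1]
        rfl
      refine Runs.ifp h4 ?_
      refine (Runs.push (b + 2) false _).mono' ?_ le_rfl
      funext i
      by_cases hi2 : i = b + 2
      · subst hi2
        rw [update_self, update_self, update_of_ne (by omega), update_of_ne (by omega)]
        rfl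
      · rw [update_of_ne hi2, update_of_ne hi2]
        by_cases hi : i = b
        · subst hi
          rw [update_self, update_of_ne (by omega), update_self]
        · by_cases hi1 : i = b + 1
          · subst hi1
            rw [update_of_ne (by omega), update_self, update_self]
          · rw [update_of_ne hi, update_of_ne hi1, update_of_ne hi1, update_of_ne hi]
    refine (Runs.loop_cons h2 hb h3).mono ?_
    simp [Tr.code]
    omega
  | node a₁ a₂ ih₁ ih₂ =>
    intro l m S S'' t h1 h2 h3
    have hc : (Tr.node a₁ a₂).code = true :: (a₁.code ++ a₂.code) := rfl
    -- state after the first round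
    let S₁ := update (update (update S b (a₁.code ++ (a₂.code ++ l))) (b + 1) (true :: true :: m))
      (b + 2) (true :: S (b + 2))
    have hS₁ : S₁ = update (update (update S b (a₁.code ++ (a₂.code ++ l))) (b + 1)
      (true :: true :: m)) (b + 2) (true :: S (b + 2)) := rfl
    have e0 : S₁ b = a₁.code ++ (a₂.code ++ l) := by
      rw [hS₁, update_of_ne (by omega), update_of_ne (by omega), update_self]
    have e1 : S₁ (b + 1) = true :: true :: m := by
      rw [hS₁, update_of_ne (by omega), update_self]
    have e2 : S₁ (b + 2) = true :: S (b + 2) := by rw [hS₁, update_self]
    have hb : Runs (.ifp b .skip (.push (b + 2) false)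
        (.seq (.push (b + 2) true) (.seq (.push (b + 1) true) (.push (b + 1) true))))
        (update S (b + 1) m) S₁ (1 + (1 + (1 + 1))) := by
      have h4 : (update S (b + 1) m) b = true :: (a₁.code ++ (a₂.code ++ l)) := by
        rw [update_of_ne (by omega), h1, hc, List.cons_append, List.append_assoc]
      refine Runs.ifp h4 ?_
      refine ((Runs.push (b + 2) true _).seq ((Runs.push (b + 1) true _).seq
        (Runs.push (b + 1) true _))).mono' ?_ le_rfl
      rw [hS₁]
      funext i
      by_cases hi2 : i = b + 2
      · subst hi2
        simp
      · by_cases hi : i = b
        · subst hi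
          simp
        · by_cases hi1 : i = b + 1
          · subst hi1
            simp
          · simp [update_of_ne hi, update_of_ne hi1, update_of_ne hi2]
    have h5 : Runs (prs b) S₁ S'' (t + 6 * a₂.code.length + 6 * a₁.code.length) := by
      refine ih₁ (a₂.code ++ l) (true :: m) S₁ S'' _ e0 e1 ?_
      refine ih₂ l m _ S'' t ?_ ?_ ?_
      · rw [update_of_ne (by omega), update_of_ne (by omega), update_self]
      · rw [update_of_ne (by omega), update_self]
      · refine h3.mono' rfl le_rfl |> fun h => ?_
        have e : update (update (update S b l) (b + 1) m) (b + 2)
            ((Tr.node a₁ a₂).code.reverse ++ S (b + 2)) =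
            update (update (update (update (update (update S₁ b (a₂.code ++ l)) (b + 1)
              (true :: m)) (b + 2) (a₁.code.reverse ++ S₁ (b + 2))) b l) (b + 1) m) (b + 2)
              (a₂.code.reverse ++ (update (update (update S₁ b (a₂.code ++ l)) (b + 1)
              (true :: m)) (b + 2) (a₁.code.reverse ++ S₁ (b + 2))) (b + 2)) := by
          funext i
          by_cases hi2 : i = b + 2
          · subst hi2
            rw [update_self, update_self, update_self, e2, hc]
            simp
          · rw [update_of_ne hi2, update_of_ne hi2]
            by_cases hi1 : i = b + 1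
            · subst hi1
              rw [update_self, update_self]
            · rw [update_of_ne hi1, update_of_ne hi1]
              by_cases hi : i = b
              · subst hi
                rw [update_self, update_self]
              · rw [update_of_ne hi, update_of_ne hi, update_of_ne hi2, update_of_ne hi1,
                  update_of_ne hi, hS₁, update_of_ne hi2, update_of_ne hi1, update_of_ne hi]
        rw [← e]
        exact h
    refine (Runs.loop_cons h2 hb h5).mono ?_
    rw [hc]
    simp only [List.length_cons, List.length_append]
    omega

theorem PRS : PRS_stmt := by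
  intro b a l S h1 h2
  have h := PRS_gen b a l [] S (update (update (update S b l) (b + 1) []) (b + 2)
    (a.code.reverse ++ S (b + 2))) 1 h1 h2 (Runs.loop_nil (by
      rw [update_of_ne (by omega), update_self]))
  exact h.mono (by omega)

end Pool.Agent.helper81.PL
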